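import Mathlib

/-!
# Brachymorphisms from finite non-associative rings are additive

Fix `x` and let `L`, `Λ` be the left multiplications by `1 + x` and `1 + f x`, so that
`f (L z) = Λ (f z)` and `f ((L - 1) z) = (Λ - 1) (f z)`. One has `f (x + b) = f x + f b` for `b` in
the range of `L` or of `L - 1`. If `L ^ (n + p) = L ^ n` with `p ≥ 1`, this gives
`Λ ^ n (f (x + y) - f x - f y) = 0`, and similarly for `Λ - 1`; since `X ^ n` and `(X - 1) ^ m` are
coprime in `ℤ[X]`, additivity follows.
-/

namespace Pool.Agent.Results.MP_041051_al.FiniteAdditive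

open Polynomial

/-- A brachymorphism: a map `f` with `f (1 + x) = 1 + f x` and `f (x * y) = f x * f y`. -/
def IsBrachymorphism {R S : Type*} [NonAssocRing R] [NonAssocRing S] (f : R → S) : Prop :=
  (∀ x : R, f (1 + x) = 1 + f x) ∧ ∀ x y : R, f (x * y) = f x * f y

/-- Left multiplication as an additive endomorphism. -/
def lm {R : Type*} [NonAssocRing R] (a : R) : AddMonoid.End R := AddMonoidHom.mulLeft a

theorem lm_apply {R : Type*} [NonAssocRing R] (a b : R) : lm a b = a * b := rfl

section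

variable {R S : Type*} [NonAssocRing R] [NonAssocRing S] {f : R → S}

theorem pow_apply (hf : IsBrachymorphism f) (a z : R) (n : ℕ) :
    f ((lm a ^ n) z) = (lm (f a) ^ n) (f z) := by
  induction n with
  | zero => simp
  | succ n ih =>
    rw [pow_succ', pow_succ']
    change f (a * (lm a ^ n) z) = f a * (lm (f a) ^ n) (f z)
    rw [hf.2, ih]

theorem exists_period [Finite R] (L : AddMonoid.End R) : ∃ n p : ℕ, L ^ (n + (p + 1)) = L ^ n := by
  have : Finite (AddMonoid.End R) := Finite.of_injective (fun g : AddMonoid.End R => (g : R → R))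
    DFunLike.coe_injective
  obtain ⟨a, b, hab, h⟩ := Finite.exists_ne_map_eq_of_infinite (fun n : ℕ => L ^ n)
  rcases Nat.lt_or_gt_of_ne hab with h1 | h1
  · exact ⟨a, b - a - 1, by rw [show a + (b - a - 1 + 1) = b by omega]; exact h.symm⟩
  · exact ⟨b, a - b - 1, by rw [show b + (a - b - 1 + 1) = a by omega]; exact h⟩

theorem step [Finite R] (hf : IsBrachymorphism f) (x : R) (a : R)
    (ha : ∀ c, f (x + a * c) = f x + f (a * c)) (y : R) :
    ∃ n : ℕ, (lm (f a) ^ n) (f (x + y) - f x - f y) = 0 := by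
  obtain ⟨n, p, hnp⟩ := exists_period (lm a)
  refine ⟨n, ?_⟩
  have h1 : (lm a ^ n) ((lm a ^ (p + 1)) y) = (lm a ^ n) y := by
    conv_rhs => rw [← hnp, pow_add]
    rfl
  have h2 : (lm a ^ (p + 1)) y = a * (lm a ^ p) y := by rw [pow_succ']; rfl
  have h3 : f (x + (lm a ^ (p + 1)) y) = f x + f ((lm a ^ (p + 1)) y) := by rw [h2, ha]
  have h4 : (lm (f a) ^ n) (f (x + y)) = (lm (f a) ^ n) (f x) + (lm (f a) ^ n) (f y) := by
    calc (lm (f a) ^ n) (f (x + y)) = f ((lm a ^ n) (x + y)) := (pow_apply hf a _ n).symm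
      _ = f ((lm a ^ n) (x + (lm a ^ (p + 1)) y)) := by rw [map_add, map_add, h1]
      _ = (lm (f a) ^ n) (f x + f ((lm a ^ (p + 1)) y)) := by rw [pow_apply hf, h3]
      _ = (lm (f a) ^ n) (f x) + f ((lm a ^ n) ((lm a ^ (p + 1)) y)) := by
        rw [map_add, pow_apply hf a ((lm a ^ (p + 1)) y) n]
      _ = _ := by rw [h1, pow_apply hf]
  rw [map_sub, map_sub, h4]
  abel

end

/-- Every brachymorphism from a finite unital non-associative ring to a unital non-associative ring
is additive. -/
theorem result (R S : Type*) [NonAssocRing R] [Finite R] [NonAssocRing S] (f : R → S)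
    (hf : IsBrachymorphism f) (x y : R) : f (x + y) = f x + f y := by
  have h1 : ∀ c, f (x + (1 + x) * c) = f x + f ((1 + x) * c) := by
    intro c
    have e1 : 1 + (x + (1 + x) * c) = (1 + x) * (1 + c) := by rw [mul_add, mul_one]; abel
    have e2 := hf.1 (x + (1 + x) * c)
    rw [e1, hf.2, hf.1 c, mul_add, mul_one, ← hf.2, hf.1, add_assoc] at e2
    exact (add_left_cancel e2).symm
  have h2 : ∀ c, f (x + x * c) = f x + f (x * c) := by
    intro c
    have e1 : x + x * c = x * (1 + c) := by rw [mul_add, mul_one]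
    rw [e1, hf.2, hf.1, mul_add, mul_one, hf.2]
  obtain ⟨n, hn⟩ := step hf x (1 + x) h1 y
  obtain ⟨m, hm⟩ := step hf x x h2 y
  have h3 : lm (f (1 + x)) = 1 + lm (f x) := by
    ext z
    rw [hf.1, lm_apply, add_mul, one_mul]
    rfl
  have hcop : IsCoprime ((1 + X : ℤ[X]) ^ n) (X ^ m) := by
    apply IsCoprime.pow
    exact ⟨1, -1, by ring⟩
  obtain ⟨a, b, hab⟩ := hcop
  have h4 := congrArg (aeval (lm (f x))) hab
  rw [map_add, map_mul, map_mul, map_pow, map_pow, map_add, map_one, aeval_X, ← h3] at h4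
  have h5 := DFunLike.congr_fun h4 (f (x + y) - f x - f y)
  change aeval (lm (f x)) a ((lm (f (1 + x)) ^ n) (f (x + y) - f x - f y)) +
    aeval (lm (f x)) b ((lm (f x) ^ m) (f (x + y) - f x - f y)) = f (x + y) - f x - f y at h5
  rw [hn, hm, map_zero, map_zero, add_zero] at h5
  rw [sub_sub] at h5
  exact (sub_eq_zero.1 h5.symm)

end Pool.Agent.Results.MP_041051_al.FiniteAdditive
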