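import Mathlib

/-!
# A non-additive brachymorphism from a non-associative ring to the field with two elements

Let `M` be the free non-unital, non-associative algebra over `ZMod 2` on two generators `x`, `y`
(the magma algebra of the free magma) and let `R` be its unitization. Every relation
`u v + δ u + ε v = u' v' + δ' u' + ε' v'` with `u, v, u', v'` nonzero is a consequence of
`(s v) (v + 1) = (s (v + 1)) v` and its mirror image. Hence one can define `g : M → ZMod 2` by
recursion on the degree so that `g (u v + δ u + ε v) = g u g v + δ g u + ε g v`, with arbitrary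
values on the elements that are not of this form, for instance `g x = g y = 0`, `g (x + y) = 1`.
-/

namespace Pool.Agent.Results.MP_041051_al.NonAdditive

/-- A brachymorphism: a map `f` with `f (1 + x) = 1 + f x` and `f (x * y) = f x * f y`. -/
def IsBrachymorphism {R S : Type*} [NonAssocRing R] [NonAssocRing S] (f : R → S) : Prop :=
  (∀ x : R, f (1 + x) = 1 + f x) ∧ ∀ x y : R, f (x * y) = f x * f y

/-- The free magma on two letters. -/
abbrev W := FreeMagma Bool

/-- The free non-unital non-associative algebra on two letters over the field with two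
elements. -/
abbrev M := MonoidAlgebra (ZMod 2) W

theorem two_cases (c : ZMod 2) : c = 0 ∨ c = 1 := by revert c; decide

theorem eq_one_of_ne {c : ZMod 2} (h : c ≠ 0) : c = 1 := (two_cases c).resolve_left h

theorem coeff_mul_mul (u v : M) (s t : W) : (u * v).coeff (s * t) = u.coeff s * v.coeff t := by
  classical
  rw [MonoidAlgebra.coeff_mul_antidiag u v (s * t) {(s, t)}]
  · simp
  · rintro ⟨a, b⟩
    rw [Finset.mem_singleton, Prod.mk.injEq]
    constructor
    · rintro ⟨rfl, rfl⟩; rfl
    · intro h
      change FreeMagma.mul a b = FreeMagma.mul s t at h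
      injection h with h1 h2
      exact ⟨h1, h2⟩

/-- The degree of an element. -/
noncomputable def deg (u : M) : ℕ := u.coeff.support.sup FreeMagma.length

theorem le_deg {u : M} {s : W} (h : u.coeff s ≠ 0) : s.length ≤ deg u :=
  Finset.le_sup (f := FreeMagma.length) (Finsupp.mem_support_iff.2 h)

theorem coeff_eq_zero {u : M} {s : W} (h : deg u < s.length) : u.coeff s = 0 := by
  by_contra h1
  exact absurd (le_deg h1) (not_le.2 h)

theorem exists_top {u : M} (h : u ≠ 0) : ∃ s : W, u.coeff s = 1 ∧ s.length = deg u := by
  have hne : u.coeff.support.Nonempty := by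
    rw [Finsupp.support_nonempty_iff]
    intro h1
    apply h
    ext s
    rw [h1]; rfl
  obtain ⟨s, hs, h2⟩ := Finset.exists_mem_eq_sup _ hne FreeMagma.length
  exact ⟨s, eq_one_of_ne (Finsupp.mem_support_iff.1 hs), h2.symm⟩

theorem deg_pos {u : M} (h : u ≠ 0) : 0 < deg u := by
  obtain ⟨s, -, h2⟩ := exists_top h
  rw [← h2]; exact s.length_pos

theorem deg_zero : deg 0 = 0 := by simp [deg]

theorem length_mul (s t : W) : (s * t).length = s.length + t.length := rfl

/-- The element `u v + δ u + ε v`. -/
noncomputable def word (u v : M) (δ ε : ZMod 2) : M := u * v + δ • u + ε • v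

theorem word_coeff (u v : M) (δ ε : ZMod 2) (s t : W) : (word u v δ ε).coeff (s * t) =
    u.coeff s * v.coeff t + δ * u.coeff (s * t) + ε * v.coeff (s * t) := by
  simp only [word, MonoidAlgebra.coeff_add, MonoidAlgebra.coeff_smul, Finsupp.add_apply,
    Finsupp.smul_apply, coeff_mul_mul, smul_eq_mul]

theorem deg_word {u v : M} (hu : u ≠ 0) (hv : v ≠ 0) (δ ε : ZMod 2) :
    deg u + deg v ≤ deg (word u v δ ε) := by
  obtain ⟨s, hs, hs'⟩ := exists_top hu
  obtain ⟨t, ht, ht'⟩ := exists_top hv
  have hu0 := deg_pos hu
  have hv0 := deg_pos hv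
  have h1 : (word u v δ ε).coeff (s * t) = 1 := by
    rw [word_coeff, hs, ht, coeff_eq_zero (u := u) (s := s * t) (by rw [length_mul]; omega),
      coeff_eq_zero (u := v) (s := s * t) (by rw [length_mul]; omega)]
    simp
  have h2 := le_deg (u := word u v δ ε) (s := s * t) (by rw [h1]; exact one_ne_zero)
  rw [length_mul, hs', ht'] at h2
  exact h2

theorem word_ne_zero {u v : M} (hu : u ≠ 0) (hv : v ≠ 0) (δ ε : ZMod 2) : word u v δ ε ≠ 0 := by
  intro h
  have := deg_word hu hv δ ε
  rw [h, deg_zero] at this
  have hu0 := deg_pos hu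
  omega

/-- Uniqueness of decompositions, first half. -/
theorem key_aux {u v u' v' : M} {δ ε δ' ε' : ZMod 2} (hu : u ≠ 0) (hv : v ≠ 0) (hu' : u' ≠ 0)
    (hv' : v' ≠ 0) (h : word u v δ ε = word u' v' δ' ε') (hd : deg u' + deg v' ≤ deg u + deg v) :
    v = v' ∨ u = u' := by
  obtain ⟨s, hs, hs'⟩ := exists_top hu
  obtain ⟨t, ht, ht'⟩ := exists_top hv
  have h1 := deg_pos hu
  have h2 := deg_pos hv
  have h3 := deg_pos hu'
  have h4 := deg_pos hv'
  have A : ∀ a b : W, deg u < a.length + b.length → deg v < a.length + b.length →
      deg u' < a.length + b.length → deg v' < a.length + b.length →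
      u.coeff a * v.coeff b = u'.coeff a * v'.coeff b := by
    intro a b e1 e2 e3 e4
    have e5 := congrArg (fun w : M => w.coeff (a * b)) h
    simp only [word_coeff] at e5
    rw [coeff_eq_zero (u := u) (s := a * b) (by rw [length_mul]; omega),
      coeff_eq_zero (u := v) (s := a * b) (by rw [length_mul]; omega),
      coeff_eq_zero (u := u') (s := a * b) (by rw [length_mul]; omega),
      coeff_eq_zero (u := v') (s := a * b) (by rw [length_mul]; omega)] at e5
    simpa using e5
  have B := A s t (by omega) (by omega) (by omega) (by omega)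
  rw [hs, ht, one_mul] at B
  have hs1 : u'.coeff s ≠ 0 := by intro h0; rw [h0, zero_mul] at B; exact one_ne_zero B
  have ht1 : v'.coeff t ≠ 0 := by intro h0; rw [h0, mul_zero] at B; exact one_ne_zero B
  have h5 := le_deg hs1
  have h6 := le_deg ht1
  have hs2 := eq_one_of_ne hs1
  have ht2 := eq_one_of_ne ht1
  rcases le_total (deg v) (deg u) with h7 | h7
  · left
    ext b
    have hb := b.length_pos
    have C := A s b (by omega) (by omega) (by omega) (by omega)
    rw [hs, hs2, one_mul, one_mul] at C
    exact C
  · right
    ext a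
    have ha := a.length_pos
    have C := A a t (by omega) (by omega) (by omega) (by omega)
    rw [ht, ht2, mul_one, mul_one] at C
    exact C

theorem key {u v u' v' : M} {δ ε δ' ε' : ZMod 2} (hu : u ≠ 0) (hv : v ≠ 0) (hu' : u' ≠ 0)
    (hv' : v' ≠ 0) (h : word u v δ ε = word u' v' δ' ε') : v = v' ∨ u = u' := by
  rcases le_total (deg u' + deg v') (deg u + deg v) with hd | hd
  · exact key_aux hu hv hu' hv' h hd
  · rcases key_aux hu' hv' hu hv h.symm hd with h1 | h1
    · exact Or.inl h1.symm
    · exact Or.inr h1.symm

/-- The value prescribed for `u v + δ u + ε v`. -/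
def val (g : M → ZMod 2) (u v : M) (δ ε : ZMod 2) : ZMod 2 := g u * g v + δ * g u + ε * g v

/-- The data of a decomposition of `w`. -/
def IsDec (w : M) (q : M × M × ZMod 2 × ZMod 2) : Prop :=
  q.1 ≠ 0 ∧ q.2.1 ≠ 0 ∧ word q.1 q.2.1 q.2.2.1 q.2.2.2 = w

theorem IsDec.lt {w : M} {q : M × M × ZMod 2 × ZMod 2} (h : IsDec w q) :
    deg q.1 < deg w ∧ deg q.2.1 < deg w := by
  obtain ⟨h1, h2, h3⟩ := h
  have := deg_word h1 h2 q.2.2.1 q.2.2.2
  rw [h3] at this
  have h4 := deg_pos h1
  have h5 := deg_pos h2
  constructor <;> omega

/-- The generator `x`. -/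
noncomputable def gx : M := MonoidAlgebra.single (FreeMagma.of true) 1

/-- The generator `y`. -/
noncomputable def gy : M := MonoidAlgebra.single (FreeMagma.of false) 1

open Classical in
/-- The function `g`, by recursion on the degree. -/
noncomputable def g : M → ZMod 2 :=
  WellFounded.fix (measure deg).wf fun w rec =>
    if h : ∃ q, IsDec w q then
      rec h.choose.1 h.choose_spec.lt.1 * rec h.choose.2.1 h.choose_spec.lt.2 +
        h.choose.2.2.1 * rec h.choose.1 h.choose_spec.lt.1 +
        h.choose.2.2.2 * rec h.choose.2.1 h.choose_spec.lt.2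
    else if w = gx + gy then 1 else 0

open Classical in
theorem g_eq (w : M) : g w = if h : ∃ q, IsDec w q then
      val g h.choose.1 h.choose.2.1 h.choose.2.2.1 h.choose.2.2.2
    else if w = gx + gy then 1 else 0 := by
  rw [g, WellFounded.fix_eq]
  rfl

theorem add_self' (u : M) : u + u = 0 := by
  ext s
  simp only [MonoidAlgebra.coeff_add, Finsupp.add_apply, MonoidAlgebra.coeff_zero,
    Finsupp.zero_apply]
  exact CharTwo.add_self_eq_zero _

theorem c2 (a : ZMod 2) : a + a = 0 := CharTwo.add_self_eq_zero a

theorem fact1 : ∀ α β ε ε' : ZMod 2,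
    (α * β + 0 * α + (ε + ε') * β) * β + 1 * (α * β + 0 * α + (ε + ε') * β) + ε * β =
      (α * β + 1 * α + (ε + ε') * β) * β + 0 * (α * β + 1 * α + (ε + ε') * β) + ε' * β := by
  decide

theorem fact2 : ∀ α β δ δ' : ZMod 2,
    α * (α * β + (δ + δ') * α + 0 * β) + δ * α + 1 * (α * β + (δ + δ') * α + 0 * β) =
      α * (α * β + (δ + δ') * α + 1 * β) + δ' * α + 0 * (α * β + (δ + δ') * α + 1 * β) := by
  decide

/-- Two decompositions with the same right factor and coefficients `δ = 1`, `δ' = 0`. -/
theorem val_right {w u u' v : M} {ε ε' : ZMod 2} (hv : v ≠ 0)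
    (IH : ∀ w', deg w' < deg w → ∀ u v δ ε, u ≠ 0 → v ≠ 0 → word u v δ ε = w' → g w' = val g u v δ ε)
    (hu : deg u < deg w) (hu' : deg u' < deg w) (ha : u + u' ≠ 0)
    (h : word u v 1 ε = word u' v 0 ε') : val g u v 1 ε = val g u' v 0 ε' := by
  set a := u + u' with hadef
  have hu1 : word a v 0 (ε + ε') = u := by
    have e1 : word u v 1 ε + word u' v 0 ε' = 0 := by rw [h, add_self']
    have e2 : word a v 0 (ε + ε') + u = word u v 1 ε + word u' v 0 ε' := by
      simp only [word, hadef, add_mul, add_smul, one_smul, zero_smul]
      abel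
    rw [e1] at e2
    have e3 : word a v 0 (ε + ε') = word a v 0 (ε + ε') + u + u := by
      rw [add_assoc, add_self', add_zero]
    rw [e3, e2, zero_add]
  have hu2 : word a v 1 (ε + ε') = u' := by
    have e1 : word a v 1 (ε + ε') = word a v 0 (ε + ε') + a := by
      simp only [word, one_smul, zero_smul]; abel
    rw [e1, hu1, hadef, ← add_assoc, add_self', zero_add]
  have g1 := IH u hu a v 0 (ε + ε') ha hv hu1
  have g2 := IH u' hu' a v 1 (ε + ε') ha hv hu2
  simp only [val] at g1 g2 ⊢
  rw [g1, g2]
  exact fact1 _ _ _ _

/-- Mirror image of `val_right`. -/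
theorem val_left {w u v v' : M} {δ δ' : ZMod 2} (hu0 : u ≠ 0)
    (IH : ∀ w', deg w' < deg w → ∀ u v δ ε, u ≠ 0 → v ≠ 0 → word u v δ ε = w' → g w' = val g u v δ ε)
    (hv : deg v < deg w) (hv' : deg v' < deg w) (hb : v + v' ≠ 0)
    (h : word u v δ 1 = word u v' δ' 0) : val g u v δ 1 = val g u v' δ' 0 := by
  set b := v + v' with hbdef
  have hv1 : word u b (δ + δ') 0 = v := by
    have e1 : word u v δ 1 + word u v' δ' 0 = 0 := by rw [h, add_self']
    have e2 : word u b (δ + δ') 0 + v = word u v δ 1 + word u v' δ' 0 := by
      simp only [word, hbdef, mul_add, add_smul, one_smul, zero_smul]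
      abel
    rw [e1] at e2
    have e3 : word u b (δ + δ') 0 = word u b (δ + δ') 0 + v + v := by
      rw [add_assoc, add_self', add_zero]
    rw [e3, e2, zero_add]
  have hv2 : word u b (δ + δ') 1 = v' := by
    have e1 : word u b (δ + δ') 1 = word u b (δ + δ') 0 + b := by
      simp only [word, one_smul, zero_smul]; abel
    rw [e1, hv1, hbdef, ← add_assoc, add_self', zero_add]
  have g1 := IH v hv u b (δ + δ') 0 hu0 hb hv1
  have g2 := IH v' hv' u b (δ + δ') 1 hu0 hb hv2
  simp only [val] at g1 g2 ⊢
  rw [g1, g2]
  exact fact2 _ _ _ _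

/-- The values prescribed by two decompositions of `w` agree. -/
theorem val_eq {w : M}
    (IH : ∀ w', deg w' < deg w → ∀ u v δ ε, u ≠ 0 → v ≠ 0 → word u v δ ε = w' → g w' = val g u v δ ε)
    {u v u' v' : M} {δ ε δ' ε' : ZMod 2} (hu : u ≠ 0) (hv : v ≠ 0) (hu' : u' ≠ 0)
    (hv' : v' ≠ 0) (h1 : word u v δ ε = w) (h2 : word u' v' δ' ε' = w) :
    val g u v δ ε = val g u' v' δ' ε' := by
  have d1 := IsDec.lt (q := (u, v, δ, ε)) ⟨hu, hv, h1⟩
  have d2 := IsDec.lt (q := (u', v', δ', ε')) ⟨hu', hv', h2⟩
  simp only at d1 d2
  have h := h1.trans h2.symm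
  have same : ∀ {a b : M}, a + b = 0 → a = b := by
    intro a b hab
    have : a = a + b + b := by rw [add_assoc, add_self', add_zero]
    rw [this, hab, zero_add]
  rcases key hu hv hu' hv' h with hvv | huu
  · subst hvv
    by_cases ha : u + u' = 0
    · have huu := same ha
      subst huu
      have e : (δ + δ') • u + (ε + ε') • v = 0 := by
        have e2 : word u v δ ε + word u v δ' ε' = 0 := by rw [h, add_self']
        have e3 : word u v δ ε + word u v δ' ε' =
            (δ + δ') • u + (ε + ε') • v + (u * v + u * v) := by
          simp only [word, add_smul]; abel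
        rw [e3, add_self', add_zero] at e2
        exact e2
      rcases two_cases (δ + δ') with hd | hd
      · rw [hd, zero_smul, zero_add] at e
        have he : ε + ε' = 0 := by
          rcases two_cases (ε + ε') with he | he
          · exact he
          · rw [he, one_smul] at e; exact absurd e hv
        have hd' : δ = δ' := by revert hd; clear * -; revert δ δ'; decide
        have he' : ε = ε' := by revert he; clear * -; revert ε ε'; decide
        rw [hd', he']
      · rw [hd, one_smul] at e
        have he : ε + ε' = 1 := by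
          rcases two_cases (ε + ε') with he | he
          · rw [he, zero_smul, add_zero] at e; exact absurd e hu
          · exact he
        rw [he, one_smul] at e
        have huv := same e
        subst huv
        simp only [val]
        generalize g u = α
        revert hd he
        clear * -
        revert δ δ' ε ε' α
        decide
    · by_cases hd : δ = δ'
      · exfalso
        apply word_ne_zero ha hv δ (ε + ε')
        have e2 : word u v δ ε + word u' v δ' ε' = 0 := by rw [h, add_self']
        rw [← e2, ← hd]
        simp only [word, add_mul, smul_add, add_smul]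
        abel
      · rcases two_cases δ with h0 | h0
        · have h3 : δ' = 1 := (two_cases δ').resolve_left (fun h3 => hd (h0.trans h3.symm))
          subst h0 h3
          exact (val_right hv IH d2.1 d1.1 (by rwa [add_comm]) h.symm).symm
        · have h3 : δ' = 0 := (two_cases δ').resolve_right (fun h3 => hd (h0.trans h3.symm))
          subst h0 h3
          exact val_right hv IH d1.1 d2.1 ha h
  · subst huu
    by_cases hb : v + v' = 0
    · have hvv := same hb
      subst hvv
      have e : (δ + δ') • u + (ε + ε') • v = 0 := by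
        have e2 : word u v δ ε + word u v δ' ε' = 0 := by rw [h, add_self']
        have e3 : word u v δ ε + word u v δ' ε' =
            (δ + δ') • u + (ε + ε') • v + (u * v + u * v) := by
          simp only [word, add_smul]; abel
        rw [e3, add_self', add_zero] at e2
        exact e2
      rcases two_cases (δ + δ') with hd | hd
      · rw [hd, zero_smul, zero_add] at e
        have he : ε + ε' = 0 := by
          rcases two_cases (ε + ε') with he | he
          · exact he
          · rw [he, one_smul] at e; exact absurd e hv
        have hd' : δ = δ' := by revert hd; clear * -; revert δ δ'; decide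
        have he' : ε = ε' := by revert he; clear * -; revert ε ε'; decide
        rw [hd', he']
      · rw [hd, one_smul] at e
        have he : ε + ε' = 1 := by
          rcases two_cases (ε + ε') with he | he
          · rw [he, zero_smul, add_zero] at e; exact absurd e hu
          · exact he
        rw [he, one_smul] at e
        have huv := same e
        subst huv
        simp only [val]
        generalize g u = α
        revert hd he
        clear * -
        revert δ δ' ε ε' α
        decide
    · by_cases hd : ε = ε'
      · exfalso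
        apply word_ne_zero hu hb (δ + δ') ε
        have e2 : word u v δ ε + word u v' δ' ε' = 0 := by rw [h, add_self']
        rw [← e2, ← hd]
        simp only [word, mul_add, smul_add, add_smul]
        abel
      · rcases two_cases ε with h0 | h0
        · have h3 : ε' = 1 := (two_cases ε').resolve_left (fun h3 => hd (h0.trans h3.symm))
          subst h0 h3
          exact (val_left hu IH d2.2 d1.2 (by rwa [add_comm]) h.symm).symm
        · have h3 : ε' = 0 := (two_cases ε').resolve_right (fun h3 => hd (h0.trans h3.symm))
          subst h0 h3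
          exact val_left hu IH d1.2 d2.2 hb h

theorem g_word_aux (n : ℕ) : ∀ w : M, deg w = n → ∀ u v δ ε, u ≠ 0 → v ≠ 0 →
    word u v δ ε = w → g w = val g u v δ ε := by
  induction n using Nat.strong_induction_on with
  | _ n ih =>
    intro w hw u v δ ε hu hv h
    have IH : ∀ w', deg w' < deg w → ∀ u v δ ε, u ≠ 0 → v ≠ 0 → word u v δ ε = w' →
        g w' = val g u v δ ε := by
      intro w' hw' u v δ ε hu hv h
      exact ih (deg w') (hw ▸ hw') w' rfl u v δ ε hu hv h
    have hex : ∃ q, IsDec w q := ⟨(u, v, δ, ε), hu, hv, h⟩
    rw [g_eq, dif_pos hex]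
    obtain ⟨h1, h2, h3⟩ := hex.choose_spec
    exact val_eq IH h1 h2 hu hv h3 h

theorem g_word {u v : M} (δ ε : ZMod 2) (hu : u ≠ 0) (hv : v ≠ 0) :
    g (word u v δ ε) = val g u v δ ε :=
  g_word_aux _ _ rfl u v δ ε hu hv rfl

theorem not_dec {w : M} (h : deg w ≤ 1) : ¬ ∃ q, IsDec w q := by
  rintro ⟨q, h1, h2, h3⟩
  have := deg_word h1 h2 q.2.2.1 q.2.2.2
  rw [h3] at this
  have h4 := deg_pos h1
  have h5 := deg_pos h2
  omega

theorem of_ne : (FreeMagma.of true : W) ≠ FreeMagma.of false := by
  intro h
  injection h with h
  exact absurd h (by decide)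

theorem gxy_ne : (0 : M) ≠ gx + gy := by
  intro h
  have := congrArg (fun w : M => w.coeff (FreeMagma.of true)) h
  simp only [gx, gy, MonoidAlgebra.coeff_add, Finsupp.add_apply, MonoidAlgebra.coeff_single,
    MonoidAlgebra.coeff_zero, Finsupp.zero_apply, Finsupp.single_eq_same,
    Finsupp.single_eq_of_ne of_ne, add_zero] at this
  exact absurd this (by decide)

theorem g_zero : g 0 = 0 := by
  rw [g_eq, dif_neg (not_dec (by rw [deg_zero]; omega)), if_neg gxy_ne]

/-- The brachymorphism. -/
noncomputable def f (z : Unitization (ZMod 2) M) : ZMod 2 := z.fst + g z.snd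

theorem f_brachy : IsBrachymorphism f := by
  constructor
  · intro z
    simp [f, add_assoc]
  · intro z z'
    simp only [f, Unitization.fst_mul, Unitization.snd_mul]
    generalize z.fst = ε
    generalize z'.fst = δ
    generalize z.snd = u
    generalize z'.snd = v
    by_cases hu : u = 0
    · subst hu
      rw [smul_zero, zero_mul, add_zero, add_zero, g_zero, add_zero]
      rcases two_cases ε with rfl | rfl
      · rw [zero_smul, g_zero]; simp
      · rw [one_smul]; simp
    by_cases hv : v = 0
    · subst hv
      rw [smul_zero, mul_zero, zero_add, add_zero, g_zero, add_zero]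
      rcases two_cases δ with rfl | rfl
      · rw [zero_smul, g_zero]; simp
      · rw [one_smul]; simp
    have h1 : ε • v + δ • u + u * v = word u v δ ε := by simp only [word]; abel
    rw [h1, g_word δ ε hu hv]
    simp only [val]
    ring

/-- There is a non-additive brachymorphism from a unital non-associative ring to the field with
two elements. -/
theorem result : ∃ (R : Type) (_ : NonAssocRing R) (f : R → ZMod 2), IsBrachymorphism f ∧
    ∃ x y : R, f (x + y) ≠ f x + f y := by
  refine ⟨Unitization (ZMod 2) M, inferInstance, f, f_brachy, (gx : M), (gy : M), ?_⟩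
  have hdeg : ∀ b c : ZMod 2, deg (MonoidAlgebra.single (FreeMagma.of true) b +
      MonoidAlgebra.single (FreeMagma.of false) c) ≤ 1 := by
    intro b c
    refine Finset.sup_le ?_
    intro s hs
    have hs' := Finsupp.mem_support_iff.1 hs
    by_cases h1 : s = FreeMagma.of true
    · rw [h1]; rfl
    · by_cases h2 : s = FreeMagma.of false
      · rw [h2]; rfl
      · exfalso
        apply hs'
        rw [MonoidAlgebra.coeff_add, Finsupp.add_apply, MonoidAlgebra.coeff_single,
          MonoidAlgebra.coeff_single, Finsupp.single_eq_of_ne h1, Finsupp.single_eq_of_ne h2,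
          add_zero]
  have hx : g gx = 0 := by
    rw [g_eq, dif_neg (not_dec (by simpa [gx] using hdeg 1 0)), if_neg]
    intro h
    have := congrArg (fun w : M => w.coeff (FreeMagma.of false)) h
    simp [gx, gy] at this
  have hy : g gy = 0 := by
    rw [g_eq, dif_neg (not_dec (by simpa [gy] using hdeg 0 1)), if_neg]
    intro h
    have := congrArg (fun w : M => w.coeff (FreeMagma.of true)) h
    simp [gx, gy] at this
  have hxy : g (gx + gy) = 1 := by
    have h1 : deg (gx + gy) ≤ 1 := hdeg 1 1
    rw [g_eq, dif_neg (not_dec h1), if_pos rfl]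
  simp only [f, Unitization.fst_add, Unitization.snd_add, Unitization.fst_inr,
    Unitization.snd_inr, hx, hy, hxy]
  simp

end Pool.Agent.Results.MP_041051_al.NonAdditive
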